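import Pool.Agent.Helper30.N9.Sheet3

/-! MP_9b91d1_co, row HUBSTR: a stress of the faces of T extends to the hub complex. -/

open scoped RealInnerProductSpace Topology

namespace Pool.Agent.Helper30.N9

open PlaneGraph

section hubstr

variable {V : Type} [Fintype V] [DecidableEq V] {M : PlaneGraph V} {p : V → E3}
    {h : M.Face → E3} {T : Set M.Face} {ν : E3}
    {X : Cx (HU M T) (HD M T) (HC M T)} {sc : Equiv.Perm (BD M T)}

theorem mem_bd47 {d : M.G.Dart} : d ∈ M.bd T ↔ M.fc d ∈ T ∧ M.fc d.symm ∉ T := by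
  classical
  unfold PlaneGraph.bd
  simp

theorem HubX.qa_inl (hX : HubX M p h T ν X sc) (d : TD M T) :
    X.qa (Sum.inl d) = p d.1.fst := by
  obtain ⟨v, h1, h2⟩ := hX.fst_inl d
  unfold Cx.qa
  rw [h1, hX.p_some, h2]

theorem HubX.qb_inl (hX : HubX M p h T ν X sc) (d : TD M T) :
    X.qb (Sum.inl d) = p d.1.snd := by
  obtain ⟨v, h1, h2⟩ := hX.snd_inl d
  unfold Cx.qb
  rw [h1, hX.p_some, h2]

theorem HubX.left_inl (hX : HubX M p h T ν X sc) (d : TD M T) {w : TC M T}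
    (hd : X.left (Sum.inl d) = Sum.inl w) : M.fc d.1 = w.1 := by
  by_cases hT : M.fc d.1 ∈ T
  · rw [hX.left_T d hT] at hd
    have := Sum.inl.inj hd
    rw [← this]
  · have h1 : M.fc d.1.symm ∈ T := d.2.resolve_left hT
    have h2 : d.1.symm ∈ M.bd T := by
      rw [mem_bd47]
      exact ⟨h1, by rw [SimpleGraph.Dart.symm_symm]; exact hT⟩
    rw [hX.left_bd d h2] at hd
    cases hd

theorem HubX.cd_inl (hX : HubX M p h T ν X sc) {w : TC M T} {i : HD M T}
    (hi : i ∈ X.cd (Sum.inl w)) : ∃ d : TD M T, i = Sum.inl d ∧ M.fc d.1 = w.1 := by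
  rw [X.mem_cd] at hi
  rcases i with d | e | e
  · exact ⟨d, rfl, hX.left_inl d hi⟩
  · rw [hX.left_a] at hi; cases hi
  · rw [hX.left_b] at hi; cases hi

theorem HubHyp.left_snd (hH : HubHyp M p T ν) {d : M.G.Dart} (hd : d ∈ M.bd T)
    {e : M.G.Dart} (he : M.fc e ∈ T) : 0 ≤ det3 (p d.fst) (p d.snd) (p e.snd) := by
  have h1 := hH.left d hd (M.nxt e) (by rw [M.fc_nxt]; exact he)
  rwa [M.nxt_fst] at h1

/-- a point of the region of a face of T lies to the left of every boundary dart -/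
theorem HubX.region_left (hX : HubX M p h T ν X sc) (hH : HubHyp M p T ν) {w : TC M T}
    {z : E3} (hz : ‖z‖ = 1) (hw : X.w (Sum.inl w) z = 1) {d : M.G.Dart}
    (hd : d ∈ M.bd T) : 0 ≤ det3 (p d.fst) (p d.snd) z := by
  by_contra hcon
  push Not at hcon
  obtain ⟨n, hn⟩ : ∃ n, n = crs (p d.fst) (p d.snd) := ⟨_, rfl⟩
  have hnz : ⟪n, z⟫ < 0 := by rw [hn, crs_inner]; exact hcon
  obtain ⟨g1, hg1⟩ : ∃ g1, g1 = X.hc (Sum.inl w) := ⟨_, rfl⟩
  obtain ⟨lam, hlam⟩ : ∃ lam, lam = |⟪g1, z⟫| / (-⟪n, z⟫) := ⟨_, rfl⟩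
  have hlam0 : 0 ≤ lam := by
    rw [hlam]
    exact div_nonneg (abs_nonneg _) (by linarith)
  have hcen : Centre (X.cd (Sum.inl w)) X.qa X.qb g1 := by
    rw [hg1]; exact X.cen (Sum.inl w)
  have hpos : ∀ i ∈ X.cd (Sum.inl w), 0 < ⟪g1 + lam • n, X.qa i⟫ ∧
      0 < ⟪g1 + lam • n, X.qb i⟫ := by
    intro i hi
    obtain ⟨i', rfl, hf⟩ := hX.cd_inl hi
    have hfT : M.fc i'.1 ∈ T := by rw [hf]; exact w.2
    have h1 := hcen.2 _ hi
    have h2 := hH.left d hd i'.1 hfT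
    have h3 := hH.left_snd hd hfT
    rw [inner_add_left, inner_add_left, real_inner_smul_left, real_inner_smul_left, hn,
      crs_inner, crs_inner]
    rw [hX.qa_inl, hX.qb_inl] at h1 ⊢
    constructor
    · have := mul_nonneg hlam0 h2
      linarith [h1.1]
    · have := mul_nonneg hlam0 h3
      linarith [h1.2]
  obtain ⟨i0, hi0⟩ := X.surj (Sum.inl w)
  have hg0 : g1 + lam • n ≠ 0 := by
    intro h0
    have := (hpos i0 (X.mem_cd.mpr hi0)).1
    rw [h0, inner_zero_left] at this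
    exact lt_irrefl _ this
  have hnp : 0 < ‖g1 + lam • n‖⁻¹ := inv_pos.mpr (norm_pos_iff.mpr hg0)
  have hcen2 : Centre (X.cd (Sum.inl w)) X.qa X.qb (nrm (g1 + lam • n)) := by
    refine ⟨norm_nrm hg0, fun i hi => ?_⟩
    unfold nrm
    rw [real_inner_smul_left, real_inner_smul_left]
    exact ⟨mul_pos hnp (hpos i hi).1, mul_pos hnp (hpos i hi).2⟩
  have hz0 : ⟪nrm (g1 + lam • n), z⟫ ≤ 0 := by
    unfold nrm
    rw [real_inner_smul_left, inner_add_left, real_inner_smul_left]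
    apply mul_nonpos_of_nonneg_of_nonpos hnp.le
    have e1 : lam * ⟪n, z⟫ = -|⟪g1, z⟫| := by
      rw [hlam]
      have : ⟪n, z⟫ ≠ 0 := hnz.ne
      field_simp
    rw [e1]
    have := le_abs_self ⟪g1, z⟫
    linarith
  have hW := (Cx.chain (X := X) (Sum.inl w)).W_zero hcen2 hz hz0
  have hci := (Cx.chain (X := X) (Sum.inl w)).centre_indep hcen hcen2
  have hW2 : X.w (Sum.inl w) z = 0 := by
    unfold Cx.w
    rw [← hg1]
    unfold W at hW ⊢
    rw [hci]
    exact hW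
  rw [hW2] at hw
  exact zero_ne_one hw

/-- maximum property inside T -/
theorem HubX.maxT (hX : HubX M p h T ν X sc) (hH : HubHyp M p T ν)
    {x : M.Face → E3} {om : M.G.Dart → ℝ} (hom : ∀ d, 0 ≤ om d)
    (hrel : ∀ d : M.G.Dart, M.fc d ∈ T → M.fc d.symm ∈ T →
      x (M.fc d) - x (M.fc d.symm) = om d • crs (p d.fst) (p d.snd))
    {y : E3} (hy : y ≠ 0) (ho : X.Offa (nrm y)) {w : TC M T}
    (hc : X.w (Sum.inl w) (nrm y) = 1) (w' : TC M T) : ⟪x w'.1, y⟫ ≤ ⟪x w.1, y⟫ := by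
  classical
  obtain ⟨z, hz⟩ : ∃ z, z = nrm y := ⟨_, rfl⟩
  have hzu : ‖z‖ = 1 := by rw [hz]; exact norm_nrm hy
  rw [← hz] at ho hc
  -- a generic point in the region of w'
  have hOo : IsOpen {y' | y' ≠ 0 ∧ X.Offa (nrm y') ∧ X.w (Sum.inl w') (nrm y') = 1} := by
    rw [isOpen_iff_mem_nhds]
    rintro y' ⟨h1, h2, h3⟩
    filter_upwards [Cx.eventually_w h1 h2 (Sum.inl w')] with y'' h
    exact ⟨h.1, h.2.1, by rw [h.2.2, h3]⟩
  have hOn : {y' | y' ≠ 0 ∧ X.Offa (nrm y') ∧ X.w (Sum.inl w') (nrm y') = 1}.Nonempty := by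
    obtain ⟨y', h1, h2, h3⟩ := Cx.exists_region (X := X) (Sum.inl w')
    exact ⟨y', h1, h2, h3⟩
  obtain ⟨y', ⟨h1, h2, h3⟩, hgen⟩ := exists_generic
    ((Finset.univ.filter (fun u => z ≠ - X.p u)).image (fun u => crs (X.p u) z)) (by
      intro n hn
      rw [Finset.mem_image] at hn
      obtain ⟨u, hu, rfl⟩ := hn
      rw [Finset.mem_filter] at hu
      intro h0
      have := crs_pos (X.unit u) hzu (Cx.off_ne ho u).symm (fun h => hu.2 (by rw [h, neg_neg]))
      rw [h0, inner_zero_left] at this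
      exact lt_irrefl _ this) hOo hOn
  obtain ⟨z', hz'⟩ : ∃ z', z' = nrm y' := ⟨_, rfl⟩
  have hzu' : ‖z'‖ = 1 := by rw [hz']; exact norm_nrm h1
  rw [← hz'] at h2 h3
  have hg : ∀ u, z ≠ -X.p u → det3 (X.p u) z z' ≠ 0 := by
    intro u hu
    have h4 := hgen (crs (X.p u) z) (Finset.mem_image.mpr ⟨u, by simp [hu], rfl⟩)
    rw [crs_inner] at h4
    rw [hz', det3_nrm]
    have h5 : 0 < ‖y'‖⁻¹ := inv_pos.mpr (norm_pos_iff.mpr h1)
    exact mul_ne_zero h5.ne' h4
  obtain ⟨xt, hxt⟩ : ∃ xt : HC M T → E3, xt = Sum.elim (fun w => x w.1) (fun _ => 0) :=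
    ⟨_, rfl⟩
  have hj := Cx.jump hzu hzu' ho h2 hg xt
  rw [Cx.sum_w_smul hzu' h2 h3, Cx.sum_w_smul hzu ho hc] at hj
  have hsgn : ∀ d, E4 (-z) (-z') (X.qa d) (X.qb d) = 0 ∨
      (0 < E4 (-z) (-z') (X.qa d) (X.qb d) ∧ det3 (X.qa d) (X.qb d) z' < 0 ∧
        0 < det3 (X.qa d) (X.qb d) z) ∨
      (E4 (-z) (-z') (X.qa d) (X.qb d) < 0 ∧ 0 < det3 (X.qa d) (X.qb d) z' ∧
        det3 (X.qa d) (X.qb d) z < 0) := by
    intro d
    have hs := E4_sign (a := -z) (b := -z') (u := X.qa d) (v := X.qb d)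
      (by rwa [norm_neg]) (by rwa [norm_neg]) (X.unit _) (X.unit _)
      (Cx.slit_d hzu' h2 d) (Cx.slit_d hzu ho d)
      (Cx.slit_gen hzu hzu' h2 _ (hg _)) (Cx.slit_gen hzu hzu' h2 _ (hg _))
      (fun h => Cx.off_ne ho _ (neg_injective h)) (fun h => Cx.off_ne ho _ (neg_injective h))
      (fun h => Cx.off_ne h2 _ (neg_injective h)) (fun h => Cx.off_ne h2 _ (neg_injective h))
      (X.nn d)
    have e : ∀ z : E3, det3 (-z) (X.qa d) (X.qb d) = - det3 (X.qa d) (X.qb d) z := by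
      intro z
      simp only [det3, PiLp.neg_apply]; ring
    rw [e, e] at hs
    rcases hs with h | ⟨h, h', h''⟩ | ⟨h, h', h''⟩
    · left; exact h
    · right; left; exact ⟨h, by linarith, by linarith⟩
    · right; right; exact ⟨h, by linarith, by linarith⟩
  have hterm : ∀ d ∈ Finset.univ, 0 ≤ ⟪E4 (-z) (-z') (X.qa d) (X.qb d) •
      (xt (X.left d) - xt (X.left (X.rev d))), z⟫ := by
    intro d _
    rcases d with d | e | e
    · obtain ⟨d', hd1, hd2⟩ := hX.rev_inl d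
      by_cases hT : M.fc d.1 ∈ T
      · by_cases hT' : M.fc d.1.symm ∈ T
        · have e1 : X.left (X.rev (Sum.inl d)) = Sum.inl ⟨M.fc d'.1, by rw [hd2]; exact hT'⟩ := by
            rw [hd1]
            exact hX.left_T d' (by rw [hd2]; exact hT')
          rw [e1, hX.left_T d hT, hxt]
          simp only [Sum.elim_inl]
          rw [hd2, hrel d.1 hT hT', real_inner_smul_left, real_inner_smul_left, crs_inner]
          have hs := hsgn (Sum.inl d)
          rw [hX.qa_inl, hX.qb_inl] at hs ⊢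
          have ho' := hom d.1
          rcases hs with h | ⟨h, _, h''⟩ | ⟨h, _, h''⟩
          · rw [h]; simp
          · positivity
          · have : 0 ≤ om d.1 * (E4 (-z) (-z') (p d.1.fst) (p d.1.snd) *
                det3 (p d.1.fst) (p d.1.snd) z) :=
              mul_nonneg ho' (mul_pos_of_neg_of_neg h h'').le
            linarith
        · have hb : d.1 ∈ M.bd T := mem_bd47.mpr ⟨hT, hT'⟩
          have q1 := hX.region_left hH hzu hc hb
          have q2 := hX.region_left hH hzu' h3 hb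
          have hs := hsgn (Sum.inl d)
          rw [hX.qa_inl, hX.qb_inl] at hs
          have e0 : E4 (-z) (-z') (p d.1.fst) (p d.1.snd) = 0 := by
            rcases hs with h | ⟨_, h', _⟩ | ⟨_, _, h''⟩
            · exact h
            · linarith
            · linarith
          rw [hX.qa_inl, hX.qb_inl, e0]; simp
      · have hT' : M.fc d.1.symm ∈ T := d.2.resolve_left hT
        have hb : d.1.symm ∈ M.bd T :=
          mem_bd47.mpr ⟨hT', by rw [SimpleGraph.Dart.symm_symm]; exact hT⟩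
        have q1 := hX.region_left hH hzu hc hb
        have q2 := hX.region_left hH hzu' h3 hb
        have hs := hsgn (Sum.inl d)
        rw [hX.qa_inl, hX.qb_inl] at hs
        have f1 : ∀ z : E3, det3 (p d.1.symm.fst) (p d.1.symm.snd) z
            = - det3 (p d.1.fst) (p d.1.snd) z := by
          intro z
          show det3 (p d.1.snd) (p d.1.fst) z = _
          simp only [det3]; ring
        rw [f1] at q1 q2
        have e0 : E4 (-z) (-z') (p d.1.fst) (p d.1.snd) = 0 := by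
          rcases hs with h | ⟨_, _, h''⟩ | ⟨_, h', _⟩
          · exact h
          · linarith
          · linarith
        rw [hX.qa_inl, hX.qb_inl, e0]; simp
    · rw [hX.left_a, hX.rev_a, hX.left_b, hxt]
      simp
    · rw [hX.left_b, hX.rev_b, hX.left_a, hxt]
      simp
  have hsum := Finset.sum_nonneg hterm
  rw [← sum_inner] at hsum
  have hpi := Real.pi_pos
  have hk : 0 < (8 * Real.pi)⁻¹ := by positivity
  have hle : ⟪xt (Sum.inl w') - xt (Sum.inl w), z⟫ ≤ 0 := by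
    rw [hj, real_inner_smul_left]
    have := mul_nonneg hk.le hsum
    linarith
  rw [hxt] at hle
  simp only [Sum.elim_inl] at hle
  rw [inner_sub_left] at hle
  have hyz : y = ‖y‖ • z := by
    rw [hz]
    unfold nrm
    rw [smul_smul, mul_inv_cancel₀ (norm_ne_zero_iff.mpr hy), one_smul]
  have hyp : 0 < ‖y‖ := norm_pos_iff.mpr hy
  rw [hyz, real_inner_smul_right, real_inner_smul_right]
  exact mul_le_mul_of_nonneg_left (by linarith) hyp.le

/-- maximum property at the vertices -/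
theorem HubX.maxV (hX : HubX M p h T ν X sc) (hH : HubHyp M p T ν)
    {x : M.Face → E3} {om : M.G.Dart → ℝ} (hom : ∀ d, 0 ≤ om d)
    (hrel : ∀ d : M.G.Dart, M.fc d ∈ T → M.fc d.symm ∈ T →
      x (M.fc d) - x (M.fc d.symm) = om d • crs (p d.fst) (p d.snd))
    (d : M.G.Dart) (hd : M.fc d ∈ T) {w' : M.Face} (hw' : w' ∈ T) :
    ⟪x w', p d.fst⟫ ≤ ⟪x (M.fc d), p d.fst⟫ := by
  obtain ⟨K, hK⟩ : ∃ K : Set E3, K = {y | ⟪x w', y⟫ ≤ ⟪x (M.fc d), y⟫} := ⟨_, rfl⟩
  have hKc : IsClosed K := by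
    rw [hK]
    exact isClosed_le (by fun_prop) (by fun_prop)
  obtain ⟨D, hD⟩ : ∃ D : HD M T, D = Sum.inl ⟨d, Or.inl hd⟩ := ⟨_, rfl⟩
  have hqa : X.qa D = p d.fst := by rw [hD]; exact hX.qa_inl _
  have hqb : X.qb D = p d.snd := by rw [hD]; exact hX.qb_inl _
  have hleft : X.left D = Sum.inl ⟨M.fc d, hd⟩ := by
    rw [hD]; exact hX.left_T ⟨d, Or.inl hd⟩ hd
  have key : ∀ y, y ≠ 0 → X.Offa (nrm y) → X.w (X.left D) (nrm y) = 1 → y ∈ K := by
    intro y h1 h2 h3
    rw [hleft] at h3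
    rw [hK]
    exact hX.maxT hH hom hrel h1 h2 h3 ⟨w', hw'⟩
  -- interior points of the arc
  have hint : ∀ x0, x0 ∈ arc (X.qa D) (X.qb D) → x0 ≠ X.qa D → x0 ≠ X.qb D → x0 ∈ K := by
    intro x0 h1 h2 h3
    rw [← hKc.closure_eq, mem_closure_iff_nhds]
    intro U hU
    have he := Cx.edge_left D h1 h2 h3
    have h0 : ∀ᶠ y in 𝓝 x0, y ≠ 0 := isOpen_ne.mem_nhds (ne_zero_of_unit h1.1)
    obtain ⟨y, hy, hdet, _⟩ := Cx.exists_left_pt D h1 ((h0.and he).and hU)
    exact ⟨y, hy.2, key y hy.1.1 (hy.1.2 hdet).1 (hy.1.2 hdet).2⟩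
  have hmem : X.qa D ∈ K := by
    rw [← hKc.closure_eq, mem_closure_iff_nhds]
    intro U hU
    have hc : Filter.Tendsto (fun t : ℝ => nrm (X.qa D + t • X.qb D)) (𝓝[>] 0)
        (𝓝 (X.qa D)) := by
      have h1 : Continuous (fun t : ℝ => X.qa D + t • X.qb D) := by fun_prop
      have h2 := h1.tendsto 0
      simp only [zero_smul, add_zero] at h2
      have h3 := (continuousAt_nrm (ne_zero_of_unit (X.unit (X.fst D)))).tendsto
      have h4 : Filter.Tendsto nrm (𝓝 (X.qa D)) (𝓝 (X.qa D)) := by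
        have h5 : nrm (X.qa D) = X.qa D := nrm_unit (X.unit (X.fst D))
        have h6 := h3
        change Filter.Tendsto nrm (𝓝 (X.qa D)) (𝓝 (nrm (X.qa D))) at h6
        rwa [h5] at h6
      exact h4.comp (h2.mono_left nhdsWithin_le_nhds)
    have h5 := hc.eventually hU
    have h6 : ∀ᶠ τ : ℝ in 𝓝[>] 0, 0 < τ := self_mem_nhdsWithin
    obtain ⟨t, ht, ht0⟩ := (h5.and h6).exists
    obtain ⟨_, a1, a2, a3⟩ := pt_props (X.unit (X.fst D)) (X.unit (X.snd D)) (Cx.qne D)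
      (X.nn D) ht0
    exact ⟨_, ht, hint _ a1 a2 a3⟩
  rw [hK, hqa] at hmem
  exact hmem

end hubstr

theorem st_HUBSTR : ST_HUBSTR := by
  classical
  intro V _ _ M p h T ν _ hH X sc hX x om hom hsym hrel hspan
  -- large constant
  obtain ⟨Tp, hTp⟩ : ∃ Tp : ℝ, ∀ w : M.Face, |⟪ν, x w⟫| < Tp := by
    refine ⟨1 + ∑ w : M.Face, |⟪ν, x w⟫|, fun w => ?_⟩
    have := Finset.single_le_sum (f := fun w : M.Face => |⟪ν, x w⟫|)
      (fun i _ => abs_nonneg _) (Finset.mem_univ w)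
    linarith
  obtain ⟨s, hs⟩ : ∃ s : BD M T → ℝ, s = fun e => (Tp + ⟪ν, x (M.fc e.1)⟫)
      / det3 (p e.1.fst) (p e.1.snd) ν := ⟨_, rfl⟩
  have hdet : ∀ e : BD M T, 0 < det3 (p e.1.fst) (p e.1.snd) ν := fun e => hH.strict e.1 e.2
  have hs0 : ∀ e, 0 < s e := by
    intro e
    rw [hs]
    apply div_pos _ (hdet e)
    have := hTp (M.fc e.1)
    have := neg_abs_le ⟪ν, x (M.fc e.1)⟫
    linarith
  have hs1 : ∀ e, s e * det3 (p e.1.fst) (p e.1.snd) ν = Tp + ⟪ν, x (M.fc e.1)⟫ := by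
    intro e
    rw [hs]
    have := (hdet e).ne'
    field_simp
  obtain ⟨xr, hxr⟩ : ∃ xr : BD M T → E3, xr = fun e =>
      x (M.fc e.1) - s e • crs (p e.1.fst) (p e.1.snd) := ⟨_, rfl⟩
  have hxr1 : ∀ e, xr e = x (M.fc e.1) - s e • crs (p e.1.fst) (p e.1.snd) := by
    intro e; rw [hxr]
  have hTpe : ∀ e, ⟪-ν, xr e⟫ = Tp := by
    intro e
    have h1 := hs1 e
    rw [hxr1, inner_neg_left, inner_sub_right, real_inner_smul_right,
      real_inner_comm (crs (p e.1.fst) (p e.1.snd)) ν, crs_inner]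
    linarith
  -- kappa
  have hkap : ∀ e : BD M T, ∃ κ : ℝ, 0 ≤ κ ∧
      xr e - xr (sc e) = κ • crs (-ν) (p e.1.snd) := by
    intro e
    have heT : M.fc e.1 ∈ T := (mem_bd47.mp e.2).1
    have heT' : M.fc (sc e).1 ∈ T := (mem_bd47.mp (sc e).2).1
    have hb : (sc e).1.fst = e.1.snd := hX.sc_fst e
    -- equality at b
    have m1 := hX.maxV hH hom hrel (sc e).1 heT' heT
    have m2 := hX.maxV hH hom hrel (M.nxt e.1) (by rw [M.fc_nxt]; exact heT) heT'
    rw [M.fc_nxt, M.nxt_fst] at m2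
    rw [hb] at m1
    have m3 : ⟪x (M.fc e.1) - x (M.fc (sc e).1), p e.1.snd⟫ = 0 := by
      rw [inner_sub_left]; linarith
    have m4 := hX.maxV hH hom hrel e.1 heT heT'
    obtain ⟨δ, hδ⟩ : ∃ δ, δ = xr e - xr (sc e) := ⟨_, rfl⟩
    have hδ' : ∀ a : E3, ⟪δ, a⟫ = ⟪x (M.fc e.1), a⟫ - ⟪x (M.fc (sc e).1), a⟫
        - s e * det3 (p e.1.fst) (p e.1.snd) a
        + s (sc e) * det3 (p e.1.snd) (p (sc e).1.snd) a := by
      intro a
      rw [hδ, hxr1, hxr1, inner_sub_left, inner_sub_left, inner_sub_left,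
        real_inner_smul_left, real_inner_smul_left, crs_inner, crs_inner, hb]
      ring
    have z1 : ⟪-ν, δ⟫ = 0 := by
      rw [hδ, inner_sub_right, hTpe, hTpe, sub_self]
    have z2 : ⟪p e.1.snd, δ⟫ = 0 := by
      rw [real_inner_comm, hδ', det3_self_right, det3_self_left]
      rw [inner_sub_left] at m3
      linarith
    have hne : crs (-ν) (p e.1.snd) ≠ 0 := by
      intro h0
      have h1 : det3 (-ν) (p e.1.snd) (p e.1.fst) = 0 := by
        rw [← crs_inner, h0, inner_zero_left]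
      have h2 := hdet e
      have h3 : det3 (-ν) (p e.1.snd) (p e.1.fst) = det3 (p e.1.fst) (p e.1.snd) ν := by
        simp only [det3, PiLp.neg_apply]; ring
      linarith
    have hpar := par_of_crs hne z1 z2
    refine ⟨_, ?_, by rw [← hδ]; exact hpar⟩
    obtain ⟨κ, hκ⟩ : ∃ κ : ℝ, κ = ⟪crs (-ν) (p e.1.snd), δ⟫ /
      ⟪crs (-ν) (p e.1.snd), crs (-ν) (p e.1.snd)⟫ := ⟨_, rfl⟩
    rw [← hκ] at hpar ⊢
    have t1 : ⟪δ, p e.1.fst⟫ = κ * det3 (p e.1.fst) (p e.1.snd) ν := by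
      have t2 : ⟪δ, p e.1.fst⟫ = ⟪κ • crs (-ν) (p e.1.snd), p e.1.fst⟫ :=
        congrArg (fun a => ⟪a, p e.1.fst⟫) hpar
      rw [t2, real_inner_smul_left, crs_inner]
      simp only [det3, PiLp.neg_apply]; ring
    have t3 := hδ' (p e.1.fst)
    have t4 : 0 ≤ det3 (p e.1.snd) (p (sc e).1.snd) (p e.1.fst) := by
      have := hH.left (sc e).1 (sc e).2 e.1 heT
      rwa [hb] at this
    have t5 := mul_nonneg (hs0 (sc e)).le t4
    rw [det3_self_left, t1] at t3
    by_contra hcon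
    push Not at hcon
    have := mul_neg_of_neg_of_pos hcon (hdet e)
    linarith
  choose κ hκ0 hκ using hkap
  obtain ⟨xt, hxt⟩ : ∃ xt : HC M T → E3, xt = Sum.elim (fun w => x w.1) xr := ⟨_, rfl⟩
  have hxl : ∀ w, xt (Sum.inl w) = x w.1 := by intro w; rw [hxt]; rfl
  have hxrr : ∀ e, xt (Sum.inr e) = xr e := by intro e; rw [hxt]; rfl
  obtain ⟨oml, homl⟩ : ∃ oml : TD M T → ℝ, oml = fun d =>
      if h1 : d.1 ∈ M.bd T then s ⟨d.1, h1⟩
      else if h2 : d.1.symm ∈ M.bd T then s ⟨d.1.symm, h2⟩ else om d.1 := ⟨_, rfl⟩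
  have l1 : ∀ (d : TD M T) (hT : d.1 ∈ M.bd T), oml d = s ⟨d.1, hT⟩ := by
    intro d hT
    rw [homl]
    simp only [hT, dif_pos]
  have l2 : ∀ (d : TD M T) (hT : d.1.symm ∈ M.bd T), oml d = s ⟨d.1.symm, hT⟩ := by
    intro d hT
    have h1 : d.1 ∉ M.bd T := by
      intro h2
      rw [mem_bd47] at h2 hT
      exact h2.2 hT.1
    rw [homl]
    simp only [h1, hT, dif_pos, dif_neg, not_false_iff]
  have l3 : ∀ d : TD M T, M.fc d.1 ∈ T → M.fc d.1.symm ∈ T → oml d = om d.1 := by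
    intro d h1 h2
    have n1 : d.1 ∉ M.bd T := by rw [mem_bd47]; exact fun h => h.2 h2
    have n2 : d.1.symm ∉ M.bd T := by
      rw [mem_bd47, SimpleGraph.Dart.symm_symm]; exact fun h => h.2 h1
    rw [homl]
    simp only [n1, n2, dif_neg, not_false_iff]
  obtain ⟨omt, homt⟩ : ∃ omt : HD M T → ℝ, omt = Sum.elim oml
      (Sum.elim κ (fun e => κ (sc.symm e))) := ⟨_, rfl⟩
  have k1 : ∀ d, omt (Sum.inl d) = oml d := by intro d; rw [homt]; rfl
  have k2 : ∀ e, omt (Sum.inr (Sum.inl e)) = κ e := by intro e; rw [homt]; rfl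
  have k3 : ∀ e, omt (Sum.inr (Sum.inr e)) = κ (sc.symm e) := by intro e; rw [homt]; rfl
  have hreln : ∀ d, xt (X.left d) - xt (X.left (X.rev d)) = omt d • crs (X.qa d) (X.qb d) := by
    intro d
    rcases d with d | e | e
    · obtain ⟨d', hd1, hd2⟩ := hX.rev_inl d
      rw [k1, hX.qa_inl, hX.qb_inl, hd1]
      by_cases hT : M.fc d.1 ∈ T
      · rw [hX.left_T d hT, hxl]
        by_cases hT' : M.fc d.1.symm ∈ T
        · have e1 : X.left (Sum.inl d') = Sum.inl ⟨M.fc d'.1, by rw [hd2]; exact hT'⟩ :=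
            hX.left_T d' (by rw [hd2]; exact hT')
          rw [e1, hxl, l3 d hT hT']
          simp only
          rw [hd2]
          exact hrel d.1 hT hT'
        · have hb : d.1 ∈ M.bd T := mem_bd47.mpr ⟨hT, hT'⟩
          have hb' : d'.1.symm ∈ M.bd T := by
            rw [hd2, SimpleGraph.Dart.symm_symm]; exact hb
          have e2 : (⟨d'.1.symm, hb'⟩ : BD M T) = ⟨d.1, hb⟩ := by
            apply Subtype.ext
            show d'.1.symm = d.1
            rw [hd2, SimpleGraph.Dart.symm_symm]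
          rw [hX.left_bd d' hb', hxrr, l1 d hb, e2, hxr1]
          simp only
          abel
      · have hT' : M.fc d.1.symm ∈ T := d.2.resolve_left hT
        have hb : d.1.symm ∈ M.bd T :=
          mem_bd47.mpr ⟨hT', by rw [SimpleGraph.Dart.symm_symm]; exact hT⟩
        have e1 : X.left (Sum.inl d') = Sum.inl ⟨M.fc d'.1, by rw [hd2]; exact hT'⟩ :=
            hX.left_T d' (by rw [hd2]; exact hT')
        rw [hX.left_bd d hb, hxrr, e1, hxl, l2 d hb, hxr1]
        simp only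
        rw [hd2]
        have e3 : crs (p d.1.symm.fst) (p d.1.symm.snd) = - crs (p d.1.fst) (p d.1.snd) := by
          show crs (p d.1.snd) (p d.1.fst) = _
          ext i; fin_cases i <;> simp [crs] <;> ring
        rw [e3, smul_neg]
        abel
    · obtain ⟨v, hv1, hv2⟩ := hX.a_snd e
      have q1 : X.qa (Sum.inr (Sum.inl e)) = -ν := by
        unfold Cx.qa; rw [hX.a_fst, hX.p_hub]
      have q2 : X.qb (Sum.inr (Sum.inl e)) = p e.1.snd := by
        unfold Cx.qb; rw [hv1, hX.p_some, hv2]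
      rw [hX.left_a, hX.rev_a, hX.left_b, hxrr, hxrr, k2, q1, q2]
      exact hκ e
    · obtain ⟨v, hv1, hv2⟩ := hX.b_fst e
      have q1 : X.qb (Sum.inr (Sum.inr e)) = -ν := by
        unfold Cx.qb; rw [hX.b_snd, hX.p_hub]
      have q2 : X.qa (Sum.inr (Sum.inr e)) = p e.1.fst := by
        unfold Cx.qa; rw [hv1, hX.p_some, hv2]
      rw [hX.left_b, hX.rev_b, hX.left_a, hxrr, hxrr, k3, q1, q2]
      have h1 := hκ (sc.symm e)
      rw [Equiv.apply_symm_apply] at h1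
      have h2 : (sc.symm e).1.snd = e.1.fst := by
        have := hX.sc_fst (sc.symm e)
        rw [Equiv.apply_symm_apply] at this
        exact this.symm
      rw [h2] at h1
      have e3 : crs (p e.1.fst) (-ν) = - crs (-ν) (p e.1.fst) := by
        ext i; fin_cases i <;> simp [crs] <;> ring
      rw [e3, smul_neg, ← h1]
      abel
  have hnn : ∀ d, 0 ≤ omt d := by
    intro d
    rcases d with d | e | e
    · rw [k1]
      by_cases n1 : d.1 ∈ M.bd T
      · rw [l1 d n1]; exact (hs0 _).le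
      · by_cases n2 : d.1.symm ∈ M.bd T
        · rw [l2 d n2]; exact (hs0 _).le
        · rw [homl]
          simp only [n1, n2, dif_neg, not_false_iff]
          exact hom _
    · rw [k2]; exact hκ0 _
    · rw [k3]; exact hκ0 _
  have hspn : ∀ y, (∀ c c', ⟪xt c - xt c', y⟫ = 0) → y = 0 := by
    intro y hy
    apply hspan
    · intro d hd
      have hdT : M.fc d ∈ T := (mem_bd47.mp hd).1
      have h1 := hy (Sum.inl ⟨M.fc d, hdT⟩) (Sum.inr ⟨d, hd⟩)
      rw [hxl, hxrr, hxr1] at h1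
      simp only at h1
      rw [sub_sub_cancel, real_inner_smul_left, crs_inner] at h1
      rcases mul_eq_zero.mp h1 with h2 | h2
      · exact absurd h2 (hs0 _).ne'
      · exact h2
    · intro d h1 h2 h3
      have h4 := hy (Sum.inl ⟨M.fc d, h1⟩) (Sum.inl ⟨M.fc d.symm, h2⟩)
      rw [hxl, hxl] at h4
      simp only at h4
      rw [hrel d h1 h2, real_inner_smul_left, crs_inner] at h4
      rcases mul_eq_zero.mp h4 with h5 | h5
      · exact absurd h5 h3
      · exact h5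
  refine ⟨⟨xt, omt, hnn, hreln, hspn⟩, s, Tp, hxl, ?_, ?_, ?_, ?_, ?_, ?_⟩
  · intro e
    exact ⟨hs0 e, by show xt (Sum.inr e) = _; rw [hxrr, hxr1]⟩
  · intro d h1 h2
    show omt (Sum.inl d) = _
    rw [k1, l3 d h1 h2]
  · intro d hT
    show omt (Sum.inl d) = _
    rw [k1, l1 d hT]
  · intro d hT
    show omt (Sum.inl d) = _
    rw [k1, l2 d hT]
  · intro e
    show ⟪-ν, xt (Sum.inr e)⟫ = Tp
    rw [hxrr, hTpe]
  · intro w
    show ⟪-ν, xt (Sum.inl w)⟫ < Tp
    rw [hxl, inner_neg_left]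
    have h1 := hTp w.1
    have h2 := neg_abs_le ⟪ν, x w.1⟫
    linarith

end Pool.Agent.Helper30.N9
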