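import Pool.Agent.Helper24.N9.Deg3
import Pool.Agent.Helper30.N9.Cx3

/-! MP_9b91d1_co, row NOML (Deg3): not both sides of a great circle have meridional stresses for
the same axis. -/

open scoped RealInnerProductSpace Topology

namespace Pool.Agent.Helper47.N9Noml

open Pool.Agent.Helper30.N9 Pool.Agent.Helper30.N9.PlaneGraph

theorem crs_inner_crs (a b c d : E3) :
    ⟪crs a b, crs c d⟫ = ⟪a, c⟫ * ⟪b, d⟫ - ⟪a, d⟫ * ⟪b, c⟫ := by
  simp only [inner_def]
  simp [crs]
  ring

theorem crs_swap (a b : E3) : crs b a = - crs a b := by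
  ext i; fin_cases i <;> simp [crs] <;> ring

theorem crs_crs (a b c : E3) : crs a (crs b c) = ⟪a, c⟫ • b - ⟪a, b⟫ • c := by
  ext i
  fin_cases i <;> simp [crs, inner_def] <;> ring

theorem crs_inner_left (a b : E3) : ⟪crs a b, a⟫ = 0 := by
  rw [crs_inner]; simp only [det3]; ring

theorem crs_inner_right (a b : E3) : ⟪crs a b, b⟫ = 0 := by
  rw [crs_inner]; simp only [det3]; ring

theorem crs_neg_left (a b : E3) : crs (-a) b = - crs a b := by
  ext i; fin_cases i <;> simp [crs] <;> ring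

theorem crs_neg_right (a b : E3) : crs a (-b) = - crs a b := by
  ext i; fin_cases i <;> simp [crs] <;> ring

theorem det3_neg_mid (a b c : E3) : det3 a (-b) c = - det3 a b c := by
  simp only [det3, PiLp.neg_apply]; ring

/-- the cross product of two vectors orthogonal to the unit vector n -/
theorem crs_eq {n y x : E3} (hn : ‖n‖ = 1) (hy : ⟪n, y⟫ = 0) (hx : ⟪n, x⟫ = 0) :
    crs y x = det3 n y x • n := by
  have h1 : crs n (crs y x) = 0 := by
    rw [crs_crs, hy, hx, zero_smul, zero_smul, sub_zero]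
  have h2 := crs_zero_par (ne_zero_of_unit hn) h1
  have h3 : ⟪n, crs y x⟫ = det3 n y x := by
    rw [real_inner_comm, crs_inner]
    simp only [det3]; ring
  rw [h3, inner_self_one hn, div_one] at h2
  exact h2

theorem eq_zero_of_three {y n B : E3} (hy : ‖y‖ = 1) (hn : ‖n‖ = 1) (hny : ⟪n, y⟫ = 0)
    (h1 : ⟪y, B⟫ = 0) (h2 : ⟪n, B⟫ = 0) (h3 : ⟪crs y n, B⟫ = 0) : B = 0 := by
  have hc : crs y n ≠ 0 := by
    intro h0
    have h4 := crs_inner_crs y n y n
    rw [h0, inner_zero_left, inner_self_one hy, inner_self_one hn, real_inner_comm n y, hny] at h4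
    norm_num at h4
  have h5 := par_of_crs hc h1 h2
  rw [h3, zero_div, zero_smul] at h5
  exact h5

/-- a unit vector orthogonal to n on the line of y -/
theorem eq_or_neg {n y x : E3} (hn : ‖n‖ = 1) (hy1 : ‖y‖ = 1) (hx1 : ‖x‖ = 1)
    (hy : ⟪n, y⟫ = 0) (hx : ⟪n, x⟫ = 0) (h : det3 n y x = 0) : x = y ∨ x = -y := by
  have h1 : crs y x = 0 := by rw [crs_eq hn hy hx, h, zero_smul]
  have h2 := crs_zero_par (ne_zero_of_unit hy1) h1
  rw [inner_self_one hy1, div_one] at h2
  have h3 : ⟪x, x⟫ = 1 := inner_self_one hx1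
  have h4 : ⟪y, x⟫ * ⟪y, x⟫ = 1 := by
    have h5 : ⟪x, x⟫ = ⟪y, x⟫ * ⟪y, x⟫ := by
      calc ⟪x, x⟫ = ⟪⟪y, x⟫ • y, x⟫ := congrArg (fun a => ⟪a, x⟫) h2
        _ = _ := by rw [real_inner_smul_left]
    rw [← h5, h3]
  rcases mul_self_eq_one_iff.mp h4 with h5 | h5
  · left; rw [h5, one_smul] at h2; exact h2
  · right; rw [h5, neg_one_smul] at h2; exact h2

theorem zero_of_neg {x : E3} (h : x = -x) : x = 0 := by
  have h1 : (2 : ℝ) • x = 0 := by
    rw [two_smul]
    nth_rewrite 1 [h]
    exact neg_add_cancel x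
  exact (smul_eq_zero.mp h1).resolve_left two_ne_zero

variable {V : Type} [Fintype V] [DecidableEq V] {M : PlaneGraph V}

/-- torque at a vertex -/
noncomputable def tor (M : PlaneGraph V) (p : V → E3) (om : M.G.Dart → ℝ) (v : V) : E3 :=
  ∑ d ∈ Finset.univ.filter (fun d : M.G.Dart => d.fst = v), om d • crs (p d.fst) (p d.snd)

theorem tor_sum {p : V → E3} {om : M.G.Dart → ℝ} (hs : ∀ d, om d.symm = om d) :
    ∑ v, tor M p om v = 0 := by
  have h1 : ∑ v, tor M p om v = ∑ d : M.G.Dart, om d • crs (p d.fst) (p d.snd) := by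
    unfold tor
    exact Finset.sum_fiberwise Finset.univ (fun d : M.G.Dart => d.fst) _
  have h2 : ∑ d : M.G.Dart, om d • crs (p d.fst) (p d.snd)
      = - ∑ d : M.G.Dart, om d • crs (p d.fst) (p d.snd) := by
    rw [← Finset.sum_neg_distrib]
    refine Finset.sum_bij' (fun d _ => d.symm) (fun d _ => d.symm) (by simp) (by simp)
      (by simp) (by simp) ?_
    intro d _
    rw [hs]
    show _ = -(om d • crs (p d.snd) (p d.fst))
    rw [crs_swap (p d.fst) (p d.snd), smul_neg, neg_neg]
  rw [h1]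
  exact zero_of_neg h2

theorem tor_comb {p : V → E3} (o1 o2 o3 o4 : M.G.Dart → ℝ) (b c e : ℝ) (v : V) :
    tor M p (fun d => o1 d + b * o2 d + c * o3 d + e * o4 d) v
      = tor M p o1 v + b • tor M p o2 v + c • tor M p o3 v + e • tor M p o4 v := by
  unfold tor
  rw [Finset.smul_sum, Finset.smul_sum, Finset.smul_sum, ← Finset.sum_add_distrib,
    ← Finset.sum_add_distrib, ← Finset.sum_add_distrib]
  apply Finset.sum_congr rfl
  intro d _
  rw [smul_smul, smul_smul, smul_smul, add_smul, add_smul, add_smul]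

theorem tor_zero_of {p : V → E3} {om : M.G.Dart → ℝ} {v : V}
    (h : ∀ d : M.G.Dart, d.fst = v → om d = 0) : tor M p om v = 0 := by
  unfold tor
  apply Finset.sum_eq_zero
  intro d hd
  rw [h d (Finset.mem_filter.mp hd).2, zero_smul]

theorem tor_congr {p : V → E3} {om om' : M.G.Dart → ℝ} {v : V}
    (h : ∀ d : M.G.Dart, d.fst = v → om d = om' d) : tor M p om v = tor M p om' v := by
  unfold tor
  apply Finset.sum_congr rfl
  intro d hd
  rw [h d (Finset.mem_filter.mp hd).2]

theorem inner_tor {p : V → E3} {om : M.G.Dart → ℝ} {v : V} (x : E3) :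
    ⟪x, tor M p om v⟫ = ∑ d ∈ Finset.univ.filter (fun d : M.G.Dart => d.fst = v),
      om d * ⟪x, crs (p d.fst) (p d.snd)⟫ := by
  unfold tor
  rw [inner_sum]
  apply Finset.sum_congr rfl
  intro d _
  rw [real_inner_smul_right]

theorem edge_cases47 {d e : M.G.Dart} (h : d.edge = e.edge) : d = e ∨ d = e.symm :=
  (SimpleGraph.dart_edge_eq_iff d e).mp h

/-- a vertex on an arc is an end of it -/
theorem vert_arc {p : V → E3} {h : M.Face → E3} (hS : M.Std p h) {v : V} {d : M.G.Dart}
    (hv : p v ∈ arc (p d.fst) (p d.snd)) : v = d.fst ∨ v = d.snd := by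
  obtain ⟨e, he, h1, h2⟩ := exists_third hS.c3 v d d.symm
  have hne : d.edge ≠ e.edge := by
    intro h3
    rcases edge_cases47 h3 with h4 | h4
    · exact h1 h4.symm
    · apply h2
      rw [h4, SimpleGraph.Dart.symm_symm]
  obtain ⟨w, hw1, _, hw3⟩ := hS.inc.embed d e hne (p v) hv (by
    rw [he]; exact left_mem_arc (hS.inc.unit v))
  have := hS.inc.inj hw3
  rw [this]
  exact mem_edge hw1

section side

variable {p : V → E3} {h : M.Face → E3} {n y : E3} {U : M.Face → Prop}

theorem equ_not (hE : M.Equ p n U) : M.Equ p (-n) (fun w => ¬ U w) where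
  un := by rw [norm_neg]; exact hE.un
  bd := by
    intro d hd
    have h1 : M.Bd U d.symm := by
      refine ⟨not_not.mp hd.2, ?_⟩
      rw [SimpleGraph.Dart.symm_symm]; exact hd.1
    obtain ⟨c, hc, h2⟩ := hE.bd _ h1
    refine ⟨c, hc, ?_⟩
    change crs (p d.snd) (p d.fst) = c • n at h2
    rw [crs_swap (p d.snd) (p d.fst), h2, smul_neg]
  up := fun e he => by rw [inner_neg_left]; linarith [hE.dn e he]
  dn := fun e he => by rw [inner_neg_left]; linarith [hE.up e (not_not.mp he)]
  ex := by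
    obtain ⟨d, hd⟩ := hE.ex
    refine ⟨d.symm, hd.2, ?_⟩
    rw [SimpleGraph.Dart.symm_symm]
    exact fun h => h hd.1

theorem end_pole (hS : M.Std p h) (hE : M.Equ p n U)
    (hcni : ∀ d, M.InD U d → ¬ (⟪n, p d.fst⟫ = 0 ∧ ⟪n, p d.snd⟫ = 0))
    (hy : ‖y‖ = 1) (hny : ⟪n, y⟫ = 0) {d : M.G.Dart} (hd : M.InD U d)
    (hm : det3 y (p d.fst) (p d.snd) = 0) (hv : ¬ M.InV U d.fst) :
    p d.fst = y ∨ p d.fst = -y := by
  unfold PlaneGraph.InV at hv
  push Not at hv
  obtain ⟨e, he, heU⟩ := hv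
  have h1 := hE.dn e heU
  rw [he] at h1
  have h2 := hE.up d hd.1
  have h3 : ⟪n, p d.fst⟫ = 0 := le_antisymm h1 h2
  apply eq_or_neg hE.un hy (hS.inc.unit _) hny h3
  by_contra hcon
  apply hcni d hd
  refine ⟨h3, ?_⟩
  have h4 : crs y (p d.fst) = det3 n y (p d.fst) • n := crs_eq hE.un hny h3
  have h5 : det3 y (p d.fst) (p d.snd) = det3 n y (p d.fst) * ⟪n, p d.snd⟫ := by
    rw [← crs_inner, h4, real_inner_smul_left]
  rw [h5] at hm
  exact (mul_eq_zero.mp hm).resolve_left hcon

theorem exists_pole (hA : ST_AXV) (hS : M.Std p h)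
    (hcov : ∀ y : E3, ‖y‖ = 1 → ⟪n, y⟫ = 0 → ∃ d, M.Bd U d ∧ y ∈ arc (p d.fst) (p d.snd))
    (hy : ‖y‖ = 1) (hny : ⟪n, y⟫ = 0) {om1 : M.G.Dart → ℝ} (hw : M.Wt om1)
    (hsup : ∀ d, om1 d ≠ 0 → M.InD U d)
    (hmer : ∀ d, om1 d ≠ 0 → det3 y (p d.fst) (p d.snd) = 0)
    (heq : ∀ v, p v ≠ y → p v ≠ -y → M.EqAt p om1 v) (hex : ∃ d, om1 d ≠ 0) :
    ∃ e, om1 e ≠ 0 ∧ p e.fst = y := by
  obtain ⟨d, hd⟩ := hex
  obtain ⟨e, he, hye, _⟩ := hA V M p y om1 hS.inc hy hw hmer heq d hd
  obtain ⟨f, hf, hyf⟩ := hcov y hy hny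
  have hI := hsup e he
  have hne : e.edge ≠ f.edge := by
    intro h3
    rcases edge_cases47 h3 with h4 | h4
    · rw [h4] at hI; exact hf.2 hI.2
    · rw [h4] at hI; exact hf.2 hI.1
  obtain ⟨v, hv1, _, hv3⟩ := hS.inc.embed e f hne y hye hyf
  rcases mem_edge hv1 with h5 | h5
  · exact ⟨e, he, by rw [← h5]; exact hv3.symm⟩
  · refine ⟨e.symm, by rw [hw.symm]; exact he, ?_⟩
    show p e.snd = y
    rw [← h5]; exact hv3.symm

/-- the component of the torque at the pole -/
theorem tor_pos (hE : M.Equ p n U)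
    (hcni : ∀ d, M.InD U d → ¬ (⟪n, p d.fst⟫ = 0 ∧ ⟪n, p d.snd⟫ = 0))
    (hy : ‖y‖ = 1) (hny : ⟪n, y⟫ = 0) {om1 : M.G.Dart → ℝ} (hw : M.Wt om1)
    (hsup : ∀ d, om1 d ≠ 0 → M.InD U d) {e : M.G.Dart} (he : om1 e ≠ 0) (hey : p e.fst = y) :
    0 < ⟪crs y n, tor M p om1 e.fst⟫ := by
  rw [inner_tor]
  have hterm : ∀ d : M.G.Dart, d.fst = e.fst →
      ⟪crs y n, crs (p d.fst) (p d.snd)⟫ = ⟪n, p d.snd⟫ := by
    intro d hd
    rw [hd, hey, crs_inner_crs, inner_self_one hy, hny]
    ring
  have hup : ∀ d, om1 d ≠ 0 → 0 ≤ ⟪n, p d.snd⟫ := by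
    intro d hd
    exact hE.up d.symm (hsup d hd).2
  apply Finset.sum_pos'
  · intro d hd
    rw [hterm d (Finset.mem_filter.mp hd).2]
    by_cases h0 : om1 d = 0
    · rw [h0, zero_mul]
    · exact mul_nonneg (hw.nonneg d) (hup d h0)
  · refine ⟨e, by simp, ?_⟩
    rw [hterm e rfl]
    apply mul_pos (lt_of_le_of_ne (hw.nonneg e) (Ne.symm he))
    apply lt_of_le_of_ne (hup e he)
    intro h0
    exact hcni e (hsup e he) ⟨by rw [hey]; exact hny, h0.symm⟩

theorem tor_orth {om1 : M.G.Dart → ℝ} {v : V} (hv : p v = y) :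
    ⟪y, tor M p om1 v⟫ = 0 := by
  rw [inner_tor]
  apply Finset.sum_eq_zero
  intro d hd
  rw [(Finset.mem_filter.mp hd).2, hv, real_inner_comm, crs_inner_left, mul_zero]

open Classical in
/-- the part of om on the open half of the great circle where det3 n y is positive -/
noncomputable def gp (p : V → E3) (n y : E3) (om : M.G.Dart → ℝ) (d : M.G.Dart) : ℝ :=
  if 0 < det3 n y (p d.fst) ∨ 0 < det3 n y (p d.snd) then om d else 0

theorem gp_wt {om : M.G.Dart → ℝ} (hw : M.Wt om) : M.Wt (gp p n y om) where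
  nonneg := by
    intro d
    unfold gp
    split_ifs
    · exact hw.nonneg d
    · exact le_refl _
  symm := by
    intro d
    have h1 : (0 < det3 n y (p d.symm.fst) ∨ 0 < det3 n y (p d.symm.snd)) ↔
        (0 < det3 n y (p d.fst) ∨ 0 < det3 n y (p d.snd)) := by
      show (0 < det3 n y (p d.snd) ∨ 0 < det3 n y (p d.fst)) ↔ _
      exact or_comm
    unfold gp
    simp only [h1, hw.symm]

theorem gp_le {om : M.G.Dart → ℝ} {d : M.G.Dart} (h0 : om d = 0) : gp p n y om d = 0 := by
  unfold gp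
  rw [h0]
  simp

/-- no stressed arc passes over a pole -/
theorem no_cross (hS : M.Std p h) (hn : ‖n‖ = 1) (hy : ‖y‖ = 1) (hny : ⟪n, y⟫ = 0) {s t : V}
    (hs : p s = y) (ht : p t = -y) {d : M.G.Dart} (h1 : ⟪n, p d.fst⟫ = 0)
    (h2 : ⟪n, p d.snd⟫ = 0) : ¬ (0 < det3 n y (p d.fst) ∧ det3 n y (p d.snd) < 0) := by
  rintro ⟨ha, hb⟩
  obtain ⟨x, hx⟩ : ∃ x, x = (-det3 n y (p d.snd)) • p d.fst + det3 n y (p d.fst) • p d.snd :=
    ⟨_, rfl⟩
  have hx0 : x ≠ 0 := by
    intro h0
    rw [hx] at h0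
    have hc := crs_pos (hS.inc.unit d.fst) (hS.inc.unit d.snd) (hS.inc.q_ne d)
      (hS.inc.ne_neg d)
    have h3 : det3 n y (p d.fst) * ⟪crs (p d.fst) (p d.snd), crs (p d.fst) (p d.snd)⟫ = 0 := by
      have h4 : crs (p d.fst) ((-det3 n y (p d.snd)) • p d.fst
          + det3 n y (p d.fst) • p d.snd) = det3 n y (p d.fst) • crs (p d.fst) (p d.snd) := by
        ext i; fin_cases i <;> simp [crs] <;> ring
      rw [h0] at h4
      have h5 : crs (p d.fst) (0 : E3) = 0 := by
        ext i; fin_cases i <;> simp [crs]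
      rw [h5] at h4
      rw [← real_inner_smul_left, ← h4, inner_zero_left]
    have := mul_pos ha hc
    linarith
  have hnx : ⟪n, nrm x⟫ = 0 := by
    rw [inner_nrm, hx, inner_add_right, real_inner_smul_right, real_inner_smul_right, h1, h2]
    ring
  have hdx : det3 n y (nrm x) = 0 := by
    rw [det3_nrm, hx, det3_add_right, det3_smul_right, det3_smul_right]
    ring
  have hmem : nrm x ∈ arc (p d.fst) (p d.snd) := by
    rw [nrm_mem_arc hx0]
    exact ⟨_, _, by linarith, ha.le, hx⟩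
  have hend : ∀ v, p v = nrm x → False := by
    intro v hv
    rw [← hv] at hmem hdx
    rcases vert_arc hS hmem with h3 | h3
    · rw [h3] at hdx; linarith
    · rw [h3] at hdx; linarith
  rcases eq_or_neg hn hy (norm_nrm hx0) hny hnx hdx with h3 | h3
  · exact hend s (by rw [hs, h3])
  · exact hend t (by rw [ht, h3])

theorem tor_gp (hS : M.Std p h) (hn : ‖n‖ = 1) (hy : ‖y‖ = 1) (hny : ⟪n, y⟫ = 0) {s t : V}
    (hs : p s = y) (ht : p t = -y) {om : M.G.Dart → ℝ}
    (heq : ∀ v, M.EqAt p om v)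
    (hgc : ∀ d, om d ≠ 0 → ⟪n, p d.fst⟫ = 0 ∧ ⟪n, p d.snd⟫ = 0) {v : V} (hvs : v ≠ s)
    (hvt : v ≠ t) : tor M p (gp p n y om) v = 0 := by
  rcases lt_trichotomy (det3 n y (p v)) 0 with h1 | h1 | h1
  · apply tor_zero_of
    intro d hd
    by_cases h0 : om d = 0
    · exact gp_le h0
    · unfold gp
      rw [if_neg]
      rintro (h2 | h2)
      · rw [hd] at h2; linarith
      · have h3 := hgc d h0
        have h4 := no_cross hS hn hy hny hs ht (d := d.symm) h3.2 h3.1
        apply h4
        refine ⟨h2, ?_⟩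
        show det3 n y (p d.fst) < 0
        rw [hd]; exact h1
  · apply tor_zero_of
    intro d hd
    apply gp_le
    by_contra h0
    have h3 := (hgc d h0).1
    rw [hd] at h3
    rcases eq_or_neg hn hy (hS.inc.unit v) hny h3 h1 with h4 | h4
    · exact hvs (hS.inc.inj (by rw [h4, hs]))
    · exact hvt (hS.inc.inj (by rw [h4, ht]))
  · have h2 : tor M p (gp p n y om) v = tor M p om v := by
      apply tor_congr
      intro d hd
      unfold gp
      rw [if_pos]
      left
      rw [hd]; exact h1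
    rw [h2]
    exact heq v

theorem gp_neg (om : M.G.Dart → ℝ) (d : M.G.Dart) : gp p n (-y) om d =
    (open Classical in if det3 n y (p d.fst) < 0 ∨ det3 n y (p d.snd) < 0 then om d else 0) := by
  unfold gp
  simp only [det3_neg_mid, neg_pos]

/-- at the pole the torque is a multiple of n -/
theorem tor_gp_pole (hn : ‖n‖ = 1) (hny : ⟪n, y⟫ = 0) {s : V}
    (hs : p s = y) {om : M.G.Dart → ℝ} (hw : M.Wt om)
    (hgc : ∀ d, om d ≠ 0 → ⟪n, p d.fst⟫ = 0 ∧ ⟪n, p d.snd⟫ = 0) :
    tor M p (gp p n y om) s = ⟪n, tor M p (gp p n y om) s⟫ • n ∧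
      0 ≤ ⟪n, tor M p (gp p n y om) s⟫ ∧
      (∀ d, d.fst = s → om d ≠ 0 → 0 < det3 n y (p d.snd) →
        0 < ⟪n, tor M p (gp p n y om) s⟫) := by
  have hterm : ∀ d : M.G.Dart, d.fst = s → om d ≠ 0 →
      crs (p d.fst) (p d.snd) = det3 n y (p d.snd) • n := by
    intro d hd h0
    rw [hd, hs]
    exact crs_eq hn hny (hgc d h0).2
  have hdd : det3 n y (p s) = 0 := by rw [hs]; simp only [det3]; ring
  have hnn : ∀ d : M.G.Dart, d.fst = s →
      0 ≤ gp p n y om d * ⟪n, crs (p d.fst) (p d.snd)⟫ := by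
    intro d hd
    by_cases h0 : om d = 0
    · rw [gp_le h0, zero_mul]
    · rw [hterm d hd h0, real_inner_smul_right, inner_self_one hn, mul_one]
      unfold gp
      split_ifs with h2
      · rw [hd, hdd] at h2
        rcases h2 with h2 | h2
        · exact absurd h2 (lt_irrefl _)
        · exact mul_nonneg (hw.nonneg d) h2.le
      · rw [zero_mul]
  refine ⟨?_, ?_, ?_⟩
  · rw [inner_tor, Finset.sum_smul]
    unfold tor
    apply Finset.sum_congr rfl
    intro d hd
    have hd' := (Finset.mem_filter.mp hd).2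
    by_cases h0 : om d = 0
    · rw [gp_le h0, zero_mul, zero_smul, zero_smul]
    · rw [hterm d hd' h0, real_inner_smul_right, inner_self_one hn, mul_one, smul_smul]
  · rw [inner_tor]
    apply Finset.sum_nonneg
    intro d hd
    exact hnn d (Finset.mem_filter.mp hd).2
  · intro d hd h0 h1
    rw [inner_tor]
    apply Finset.sum_pos'
    · intro e he
      exact hnn e (Finset.mem_filter.mp he).2
    · refine ⟨d, by simp [hd], ?_⟩
      rw [hterm d hd h0, real_inner_smul_right, inner_self_one hn, mul_one]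
      have h2 : gp p n y om d = om d := by
        unfold gp
        rw [if_pos (Or.inr h1)]
      rw [h2]
      exact mul_pos (lt_of_le_of_ne (hw.nonneg d) (Ne.symm h0)) h1

end side

theorem st_NOML (hCC : ST_CCOV) (hCN : ST_CNI) (hA : ST_AXV) : ST_NOML := by
  classical
  intro V _ _ M p h n y U om hS hE hC hy hny hno om2 hw2 hsup2 heq2 hmer2 d2
  by_contra hd2
  have hno' : ∃ om1 : M.G.Dart → ℝ, M.Wt om1 ∧ (∀ d, om1 d ≠ 0 → M.InD U d) ∧
      (∀ v, M.InV U v → M.EqAt p om1 v) ∧
      (∀ d, om1 d ≠ 0 → det3 y (p d.fst) (p d.snd) = 0) ∧ ∃ d, om1 d ≠ 0 := by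
    by_contra hcon
    push Not at hcon
    exact hno (fun om1 a b c e d => hcon om1 a b c e d)
  obtain ⟨om1, hw1, hsup1, heq1, hmer1, d1, hd1⟩ := hno'
  have hE' := equ_not hE
  have hcni := hCN V M p h n U hS hE
  have hcni' := hCN V M p h (-n) (fun w => ¬ U w) hS hE'
  have hcov := hCC V M p h n U hS hE
  have hcov' := hCC V M p h (-n) (fun w => ¬ U w) hS hE'
  have hny' : ⟪-n, y⟫ = 0 := by rw [inner_neg_left, hny, neg_zero]
  -- torques vanish away from the poles
  have z1 : ∀ v, p v ≠ y → p v ≠ -y → tor M p om1 v = 0 := by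
    intro v h1 h2
    by_cases hv : M.InV U v
    · exact heq1 v hv
    · apply tor_zero_of
      intro d hd
      by_contra h0
      rcases end_pole hS hE hcni hy hny (hsup1 d h0) (hmer1 d h0) (by rw [hd]; exact hv)
        with h3 | h3
      · rw [hd] at h3; exact h1 h3
      · rw [hd] at h3; exact h2 h3
  have z2 : ∀ v, p v ≠ y → p v ≠ -y → tor M p om2 v = 0 := by
    intro v h1 h2
    by_cases hv : M.InV (fun w => ¬ U w) v
    · exact heq2 v hv
    · apply tor_zero_of
      intro d hd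
      by_contra h0
      rcases end_pole hS hE' hcni' hy hny' (hsup2 d h0) (hmer2 d h0) (by rw [hd]; exact hv)
        with h3 | h3
      · rw [hd] at h3; exact h1 h3
      · rw [hd] at h3; exact h2 h3
  -- poles
  obtain ⟨e1, he1, hs⟩ := exists_pole hA hS hcov hy hny hw1 hsup1 hmer1 z1 ⟨d1, hd1⟩
  obtain ⟨e2, he2, hs2⟩ := exists_pole hA hS hcov' hy hny' hw2 hsup2 hmer2 z2 ⟨d2, hd2⟩
  have hmn : ∀ a b : E3, det3 (-y) a b = - det3 y a b := by
    intro a b; exact det3_neg_left y a b
  obtain ⟨e3, he3, ht⟩ := exists_pole (y := -y) hA hS hcov (by rw [norm_neg]; exact hy)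
    (by rw [inner_neg_right, hny, neg_zero]) hw1 hsup1
    (fun d hd => by rw [hmn, hmer1 d hd, neg_zero])
    (fun v h1 h2 => z1 v (fun h3 => h2 (by rw [h3, neg_neg])) h1) ⟨d1, hd1⟩
  obtain ⟨s, hse⟩ : ∃ s, s = e1.fst := ⟨_, rfl⟩
  obtain ⟨t, hte⟩ : ∃ t, t = e3.fst := ⟨_, rfl⟩
  have hps : p s = y := by rw [hse]; exact hs
  have hpt : p t = -y := by rw [hte]; exact ht
  have hs2' : e2.fst = s := hS.inc.inj (by rw [hs2, hps])
  have a1 := tor_pos hE hcni hy hny hw1 hsup1 he1 hs
  have a2 := tor_pos hE' hcni' hy hny' hw2 hsup2 he2 hs2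
  rw [← hse] at a1
  rw [hs2', crs_neg_right, inner_neg_left] at a2
  -- stress on the great circle
  have hgc : ∀ d, om d ≠ 0 → ⟪n, p d.fst⟫ = 0 ∧ ⟪n, p d.snd⟫ = 0 := by
    intro d hd
    have key : ∀ e, M.Bd U e → ⟪n, p e.fst⟫ = 0 ∧ ⟪n, p e.snd⟫ = 0 := by
      intro e he
      obtain ⟨c, hc, h1⟩ := hE.bd e he
      have h2 : n = c⁻¹ • crs (p e.fst) (p e.snd) := by
        rw [h1, smul_smul, inv_mul_cancel₀ hc.ne', one_smul]
      rw [h2, real_inner_smul_left, real_inner_smul_left, crs_inner_left, crs_inner_right]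
      simp
    rcases (hC.supp d).mp hd with h1 | h1
    · exact key d h1
    · have := key d.symm h1
      exact ⟨this.2, this.1⟩
  have hnyn : ⟪n, -y⟫ = 0 := by rw [inner_neg_right, hny, neg_zero]
  have hpt' : p s = -(-y) := by rw [hps, neg_neg]
  have gz1 : ∀ v, v ≠ s → v ≠ t → tor M p (gp p n y om) v = 0 := fun v h1 h2 =>
    tor_gp hS hE.un hy hny hps hpt hC.eq hgc h1 h2
  have gz2 : ∀ v, v ≠ s → v ≠ t → tor M p (gp p n (-y) om) v = 0 := fun v h1 h2 =>
    tor_gp hS hE.un (by rw [norm_neg]; exact hy) hnyn hpt hpt' hC.eq hgc h2 h1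
  -- at s: gp for y, and gp for -y
  have q1 := tor_gp_pole hE.un hny hps hC.wt hgc
  -- darts at s
  have hdd : det3 n y (p s) = 0 := by rw [hps]; simp only [det3]; ring
  have hsplit : ∀ d : M.G.Dart, d.fst = s → om d = gp p n y om d + gp p n (-y) om d := by
    intro d hd
    by_cases h0 : om d = 0
    · rw [gp_le h0, gp_le h0, h0, add_zero]
    · have h1 : det3 n y (p d.snd) ≠ 0 := by
        intro h2
        rcases eq_or_neg hE.un hy (hS.inc.unit d.snd) hny (hgc d h0).2 h2 with h3 | h3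
        · exact hS.inc.q_ne d (by rw [hd, hps, h3])
        · exact hS.inc.ne_neg d (by rw [hd, hps, h3, neg_neg])
      rw [gp_neg]
      unfold gp
      rw [hd, hdd]
      rcases lt_or_gt_of_ne h1 with h2 | h2
      · rw [if_neg (by rintro (h | h); exact lt_irrefl _ h; linarith), if_pos (Or.inr h2)]
        ring
      · rw [if_pos (Or.inr h2), if_neg (by rintro (h | h); exact lt_irrefl _ h; linarith)]
        ring
  have hsum0 : tor M p (gp p n y om) s + tor M p (gp p n (-y) om) s = 0 := by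
    have h1 : tor M p om s = 0 := hC.eq s
    rw [← h1]
    unfold tor
    rw [← Finset.sum_add_distrib]
    apply Finset.sum_congr rfl
    intro d hd
    rw [hsplit d (Finset.mem_filter.mp hd).2, add_smul]
  -- both are nonzero
  obtain ⟨g, hg⟩ : ∃ g, g = ⟪n, tor M p (gp p n y om) s⟫ := ⟨_, rfl⟩
  rw [← hg] at q1
  have hgm : tor M p (gp p n (-y) om) s = (-g) • n := by
    rw [neg_smul, ← q1.1]
    exact (neg_eq_of_add_eq_zero_right hsum0).symm
  have hgpos : 0 < g := by
    obtain ⟨f, hf, hyf⟩ := hcov y hy hny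
    have hf0 : om f ≠ 0 := (hC.supp f).mpr (Or.inl hf)
    obtain ⟨c, hc, hfc⟩ := hE.bd f hf
    have hyf' : p s ∈ arc (p f.fst) (p f.snd) := by rw [hps]; exact hyf
    rcases vert_arc hS hyf' with h1 | h1
    · apply q1.2.2 f h1.symm hf0
      rw [← h1, hps] at hfc
      have h2 : det3 n y (p f.snd) = ⟪n, crs y (p f.snd)⟫ := by
        rw [real_inner_comm, crs_inner]
        simp only [det3]; ring
      rw [h2, hfc, real_inner_smul_right, inner_self_one hE.un, mul_one]
      exact hc
    · -- then the -y part is nonzero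
      have hf0' : om f.symm ≠ 0 := by rw [hC.wt.symm]; exact hf0
      have h3 : det3 n y (p f.fst) < 0 := by
        rw [← h1, hps] at hfc
        have h2 : det3 n y (p f.fst) = -⟪n, crs (p f.fst) y⟫ := by
          rw [real_inner_comm, crs_inner]
          simp only [det3]; ring
        rw [h2, hfc, real_inner_smul_right, inner_self_one hE.un, mul_one]
        linarith
      have h4 : ⟪n, tor M p (gp p n (-y) om) s⟫ < 0 := by
        rw [inner_tor]
        have hterm : ∀ d : M.G.Dart, d.fst = s → om d ≠ 0 →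
            ⟪n, crs (p d.fst) (p d.snd)⟫ = det3 n y (p d.snd) := by
          intro d hd h0
          rw [hd, hps, crs_eq hE.un hny (hgc d h0).2, real_inner_smul_right,
            inner_self_one hE.un, mul_one]
        have h5 : 0 < ∑ d ∈ Finset.univ.filter (fun d : M.G.Dart => d.fst = s),
            (-(gp p n (-y) om d * ⟪n, crs (p d.fst) (p d.snd)⟫)) := by
          apply Finset.sum_pos'
          · intro d hd
            have hd' := (Finset.mem_filter.mp hd).2
            by_cases h0 : om d = 0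
            · rw [gp_le h0, zero_mul, neg_zero]
            · rw [hterm d hd' h0, gp_neg]
              rw [hd', hdd]
              split_ifs with h6
              · rcases h6 with h6 | h6
                · exact absurd h6 (lt_irrefl _)
                · have := mul_nonneg_of_nonpos_of_nonpos
                    (neg_nonpos.mpr (hC.wt.nonneg d)) h6.le
                  linarith
              · rw [zero_mul, neg_zero]
          · refine ⟨f.symm, by simp [h1], ?_⟩
            rw [hterm f.symm h1.symm hf0', gp_neg]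
            have h7 : f.symm.snd = f.fst := rfl
            rw [h7, if_pos (Or.inr h3)]
            have h8 := lt_of_le_of_ne (hC.wt.nonneg f.symm) (Ne.symm hf0')
            have := mul_pos_of_neg_of_neg (neg_neg_of_pos h8) h3
            linarith
        rw [Finset.sum_neg_distrib] at h5
        linarith
      rw [hgm, real_inner_smul_right, inner_self_one hE.un] at h4
      linarith
  -- combination
  obtain ⟨A1, hA1⟩ : ∃ A1, A1 = ⟪crs y n, tor M p om1 s⟫ := ⟨_, rfl⟩
  obtain ⟨A2, hA2⟩ : ∃ A2, A2 = -⟪crs y n, tor M p om2 s⟫ := ⟨_, rfl⟩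
  rw [← hA1] at a1
  rw [← hA2] at a2
  obtain ⟨b, hb⟩ : ∃ b, b = ⟪n, tor M p om1 s⟫ + (A1 / A2) * ⟪n, tor M p om2 s⟫ := ⟨_, rfl⟩
  obtain ⟨om', hom'⟩ : ∃ om' : M.G.Dart → ℝ, om' = fun d => om1 d + (A1 / A2) * om2 d
      + (max (-b) 0 / g) * gp p n y om d + (max b 0 / g) * gp p n (-y) om d := ⟨_, rfl⟩
  have w3 := gp_wt (p := p) (n := n) (y := y) hC.wt
  have w4 := gp_wt (p := p) (n := n) (y := -y) hC.wt
  have c1 : 0 ≤ A1 / A2 := (div_pos a1 a2).le
  have c2 : 0 ≤ max (-b) 0 / g := div_nonneg (le_max_right _ _) hgpos.le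
  have c3 : 0 ≤ max b 0 / g := div_nonneg (le_max_right _ _) hgpos.le
  have hw' : M.Wt om' := by
    constructor
    · intro d
      rw [hom']
      have e1 := hw1.nonneg d
      have e2 := mul_nonneg c1 (hw2.nonneg d)
      have e3 := mul_nonneg c2 (w3.nonneg d)
      have e4 := mul_nonneg c3 (w4.nonneg d)
      show 0 ≤ _
      linarith
    · intro d
      rw [hom']
      simp only [hw1.symm, hw2.symm, w3.symm, w4.symm]
  have hts : tor M p om' s = 0 := by
    rw [hom', tor_comb, q1.1, hgm]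
    apply eq_zero_of_three hy hE.un hny
    · rw [inner_add_right, inner_add_right, inner_add_right, real_inner_smul_right,
        real_inner_smul_right, real_inner_smul_right, tor_orth hps, tor_orth hps,
        real_inner_smul_right, real_inner_smul_right, real_inner_comm, hny]
      ring
    · rw [inner_add_right, inner_add_right, inner_add_right, real_inner_smul_right,
        real_inner_smul_right, real_inner_smul_right, real_inner_smul_right,
        real_inner_smul_right, inner_self_one hE.un]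
      have e1 : max (-b) 0 / g * (g * 1) = max (-b) 0 := by field_simp
      have e2 : max b 0 / g * (-g * 1) = - max b 0 := by field_simp
      rw [e1, e2, ← hb]
      rcases le_total 0 b with h1 | h1
      · rw [max_eq_right (by linarith : -b ≤ 0), max_eq_left h1]; ring
      · rw [max_eq_left (by linarith : 0 ≤ -b), max_eq_right h1]; ring
    · rw [inner_add_right, inner_add_right, inner_add_right, real_inner_smul_right,
        real_inner_smul_right, real_inner_smul_right, real_inner_smul_right,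
        real_inner_smul_right, crs_inner_right, ← hA1]
      have e1 : ⟪crs y n, tor M p om2 s⟫ = -A2 := by rw [hA2, neg_neg]
      rw [e1]
      field_simp
      ring
  have hz' : ∀ v, v ≠ s → v ≠ t → tor M p om' v = 0 := by
    intro v h1 h2
    have h3 : p v ≠ y := fun h4 => h1 (hS.inc.inj (by rw [h4, hps]))
    have h4 : p v ≠ -y := fun h4 => h2 (hS.inc.inj (by rw [h4, hpt]))
    rw [hom', tor_comb, z1 v h3 h4, z2 v h3 h4, gz1 v h1 h2, gz2 v h1 h2]
    simp
  have hst : s ≠ t := by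
    intro h1
    rw [h1, hpt] at hps
    have h2 : y = 0 := zero_of_neg hps.symm
    rw [h2] at hy
    simp at hy
  have htt : tor M p om' t = 0 := by
    have h1 := tor_sum (M := M) (p := p) hw'.symm
    rw [← Finset.add_sum_erase _ _ (Finset.mem_univ s), hts, zero_add] at h1
    rw [← Finset.add_sum_erase _ _ (Finset.mem_erase.mpr ⟨hst.symm, Finset.mem_univ t⟩)] at h1
    rw [Finset.sum_eq_zero, add_zero] at h1
    · exact h1
    · intro v hv
      rw [Finset.mem_erase, Finset.mem_erase] at hv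
      exact hz' v hv.2.1 hv.1
  have hfull : ∀ v, M.EqAt p om' v := by
    intro v
    show tor M p om' v = 0
    by_cases h1 : v = s
    · rw [h1]; exact hts
    by_cases h2 : v = t
    · rw [h2]; exact htt
    exact hz' v h1 h2
  have hne : om' d1 ≠ 0 := by
    have e1 := lt_of_le_of_ne (hw1.nonneg d1) (Ne.symm hd1)
    have e2 := mul_nonneg c1 (hw2.nonneg d1)
    have e3 := mul_nonneg c2 (w3.nonneg d1)
    have e4 := mul_nonneg c3 (w4.nonneg d1)
    have : 0 < om' d1 := by
      rw [hom']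
      show 0 < _
      linarith
    exact this.ne'
  have hfin := hC.max om' hw' hfull d1 hne
  have hI := hsup1 d1 hd1
  rcases (hC.supp d1).mp hfin with h1 | h1
  · exact h1.2 hI.2
  · apply h1.2
    rw [SimpleGraph.Dart.symm_symm]
    exact hI.1

end Pool.Agent.Helper47.N9Noml
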